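import Mathlib
import Pool.Agent.H293.CW.Node

set_option autoImplicit false

/-!
# Five-regular graphs of carving width at most seven

Multigraphs are given by a type `V` of vertices, a type `E` of edges and the two ends
`s e`, `t e` of every edge.
-/

namespace Pool.Agent.Results.MP_78ca69_co.CarvingWidthSeven

variable {V E : Type} [DecidableEq V] [Fintype E]

/-- the edges with exactly one end in `X` -/
def cut (s t : E → V) (X : Finset V) : Finset E :=
  Finset.univ.filter fun e => ¬ (s e ∈ X ↔ t e ∈ X)

/-- `Carved s t a b X`: the set `X` can be built from single vertices by uniting two disjoint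
sets again and again, and every set that occurs (the single vertices and `X` included) is left
by at least `a` and at most `b` edges. -/
inductive Carved (s t : E → V) (a b : ℕ) : Finset V → Prop
  | vertex (v : V) : a ≤ (cut s t {v}).card → (cut s t {v}).card ≤ b → Carved s t a b {v}
  | union (X Y : Finset V) : Carved s t a b X → Carved s t a b Y → Disjoint X Y →
      a ≤ (cut s t (X ∪ Y)).card → (cut s t (X ∪ Y)).card ≤ b → Carved s t a b (X ∪ Y)

/-- The edges can be coloured with five colours so that different edges with a common end have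
different colours. -/
def FiveColourable (s t : E → V) : Prop :=
  ∃ c : E → Fin 5, ∀ v : V, ∀ e f : E, (s e = v ∨ t e = v) → (s f = v ∨ t f = v) →
    e ≠ f → c e ≠ c f

lemma inv_of_carved [DecidableEq E] {s t : E → V} (hloop : ∀ e, s e ≠ t e)
    (hreg : ∀ v, (Finset.univ.filter fun e => s e = v ∨ t e = v).card = 5) {X : Finset V}
    (h : Carved s t 5 7 X) : H293.CW.Inv s t X ∧ H293.CW.Sz (H293.CW.cut s t X).card := by
  have hsz : ∀ n : ℕ, 5 ≤ n → n ≤ 7 → H293.CW.Sz n := by
    intro n h1 h2
    unfold H293.CW.Sz
    omega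
  induction h with
  | vertex v h1 h2 =>
      refine ⟨H293.CW.leaf hloop v ?_, hsz _ h1 h2⟩
      rw [← hreg v]
      congr 1
      ext e
      rw [H293.CW.cut_singleton hloop v e, Finset.mem_filter]
      simp [H293.CW.At]
  | union X Y _ _ hd h1 h2 ihX ihY =>
      exact ⟨H293.CW.node hd ihX.1 ihY.1 ihX.2 ihY.2 (hsz _ h1 h2), hsz _ h1 h2⟩

/-- A loopless 5-regular multigraph with a carving all of whose cuts have 5, 6 or 7 edges is
Class 1. -/
theorem result {V E : Type} [DecidableEq V] [Fintype E] (s t : E → V)
    (hloop : ∀ e, s e ≠ t e)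
    (hreg : ∀ v, (Finset.univ.filter fun e => s e = v ∨ t e = v).card = 5)
    (X Y : Finset V) (hX : Carved s t 5 7 X) (hY : Carved s t 5 7 Y) (hXY : Disjoint X Y)
    (hcov : ∀ v, v ∈ X ∪ Y) : FiveColourable s t := by
  classical
  obtain ⟨iX, sX⟩ := inv_of_carved hloop hreg hX
  obtain ⟨iY, _⟩ := inv_of_carved hloop hreg hY
  obtain ⟨c, hc⟩ := H293.CW.root hXY hcov iX iY sX
  exact ⟨c, fun v e f he hf hef h => hef (hc v e f he hf h)⟩

end Pool.Agent.Results.MP_78ca69_co.CarvingWidthSeven
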